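import Mathlib
import Pool.Agent.Helper29.MFA.T59

set_option autoImplicit false

namespace Pool.Agent.Results.MP_2ac654_co.FullAnswer

/-- Let `n ≥ 2`, let `M` be a finite simple regular matroid of rank `n - 1`, where regular means
represented over the reals by a totally unimodular matrix, and let `c` be a colouring of its
elements with `n` colours in which every colour class has at least two elements.  Then `M` has a
rainbow circuit of size at most `⌈n / 2⌉`. -/
theorem result {n : ℕ} (hn : 2 ≤ n) {α : Type*} (M : Matroid α) [M.Finite]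
    (hreg : ∃ (m : ℕ) (A : Matrix (Fin m) α ℝ), A.IsTotallyUnimodular ∧
      ∀ S ⊆ M.E, (M.Indep S ↔ LinearIndepOn ℝ (fun e i => A i e) S))
    (hs : ∀ C, M.IsCircuit C → 3 ≤ C.encard) (hr : M.eRank = ((n - 1 : ℕ) : ℕ∞)) (c : α → Fin n)
    (hc : ∀ i, 2 ≤ (M.E ∩ c ⁻¹' {i}).encard) :
    ∃ C, M.IsCircuit C ∧ Set.InjOn c C ∧ C.encard ≤ ((n + 1) / 2 : ℕ) :=
  RC.rainbow_regular hn M hreg hs hr c hc

end Pool.Agent.Results.MP_2ac654_co.FullAnswer
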